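import Pool.Agent.H94.IC.Targets1

/-! modules UNI, GLS of MP_0ee698_an: gluing of sign functions -/

open MeasureTheory Set Filter Topology Metric

namespace Pool.Agent.H41.IC

open Pool.Agent.H94.IC

section general

variable {X : Type} [TopologicalSpace X] {O Y : Set X} {P : Set X → (X → ℤˣ) → Prop}

lemma ne_neg_units (a : ℤˣ) : a ≠ -a := by
  intro h
  have := congrArg (fun u : ℤˣ => (u : ℤ)) h
  simp only [Units.val_neg] at this
  have h2 : (a : ℤ) = 0 := by linarith
  exact a.ne_zero h2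

/-- restriction of sections -/
lemma restr (h : SignSheaf O Y P) {W W' : Set X} {s : X → ℤˣ} (hW : IsOpen W) (hWO : W ⊆ O)
    (hW' : IsOpen W') (hsub : W' ⊆ W) (hs : P W s) : P W' s :=
  h.glue W' s hW' (hsub.trans hWO) fun _ hx => ⟨W, hW, hsub hx, hWO, hs⟩

theorem uni' (h : SignSheaf O Y P) {W : Set X} {s s' : X → ℤˣ} (hW : IsOpen W)
    (hc : IsPreconnected W) (hWO : W ⊆ O) (hs : P W s) (hs' : P W s') :
    (∀ y ∈ W \ Y, s y = s' y) ∨ (∀ y ∈ W \ Y, s y = - s' y) := by
  set A : Set X := ⋃₀ {W' | IsOpen W' ∧ W' ⊆ W ∧ ∀ y ∈ W' \ Y, s y = s' y} with hA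
  set B : Set X := ⋃₀ {W' | IsOpen W' ∧ W' ⊆ W ∧ ∀ y ∈ W' \ Y, s y = - s' y} with hB
  have hAo : IsOpen A := isOpen_sUnion fun W' h => h.1
  have hBo : IsOpen B := isOpen_sUnion fun W' h => h.1
  have hd : Disjoint A B := by
    rw [Set.disjoint_left]
    rintro x ⟨W1, ⟨h1, h2, h3⟩, h4⟩ ⟨W2, ⟨g1, g2, g3⟩, g4⟩
    obtain ⟨y, hy1, hy2⟩ := h.dense (W1 ∩ W2) (h1.inter g1) (inter_subset_left.trans (h2.trans hWO))
      ⟨x, h4, g4⟩
    have e1 := h3 y ⟨hy1.1, hy2⟩
    have e2 := g3 y ⟨hy1.2, hy2⟩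
    exact ne_neg_units (s' y) (e1 ▸ e2)
  have hcov : W ⊆ A ∪ B := by
    intro x hx
    obtain ⟨W', h1, h2, h3, h4⟩ := h.uniq W s s' hW hWO hs hs' x hx
    rcases h4 with h4 | h4
    · exact Or.inl ⟨W', ⟨h1, h3, h4⟩, h2⟩
    · exact Or.inr ⟨W', ⟨h1, h3, h4⟩, h2⟩
  rcases hc.subset_or_subset hAo hBo hd hcov with hh | hh
  · left
    rintro y ⟨hy, hyY⟩
    obtain ⟨W', ⟨h1, h2, h3⟩, h4⟩ := hh hy
    exact h3 y ⟨h4, hyY⟩
  · right
    rintro y ⟨hy, hyY⟩
    obtain ⟨W', ⟨h1, h2, h3⟩, h4⟩ := hh hy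
    exact h3 y ⟨h4, hyY⟩

/-- gluing two sections over sets with preconnected nonempty intersection -/
lemma glue2 (h : SignSheaf O Y P) {A B : Set X} {s s' : X → ℤˣ} (hA : IsOpen A) (hB : IsOpen B)
    (hAO : A ⊆ O) (hBO : B ⊆ O) (hc : IsPreconnected (A ∩ B)) (hs : P A s) (hs' : P B s') :
    ∃ t : X → ℤˣ, P (A ∪ B) t ∧ ∀ y ∈ A, t y = s y := by
  classical
  have hr := restr h hA hAO (hA.inter hB) inter_subset_left hs
  have hr' := restr h hB hBO (hA.inter hB) inter_subset_right hs'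
  -- normalise the sign
  obtain ⟨s2, h2, h2'⟩ : ∃ s2 : X → ℤˣ, P B s2 ∧ ∀ y ∈ (A ∩ B) \ Y, s y = s2 y := by
    rcases uni' h (hA.inter hB) hc (inter_subset_left.trans hAO) hr hr' with h1 | h1
    · exact ⟨s', hs', h1⟩
    · exact ⟨fun x => - s' x, h.neg B s' hB hBO hs', h1⟩
  refine ⟨fun x => if x ∈ A then s x else s2 x, ?_, fun y hy => if_pos hy⟩
  refine h.glue _ _ (hA.union hB) (union_subset hAO hBO) fun x hx => ?_
  rcases hx with hx | hx
  · refine ⟨A, hA, hx, hAO, h.congr A s _ hA hAO hs fun y hy => ?_⟩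
    rw [if_pos hy.1]
  · refine ⟨B, hB, hx, hBO, h.congr B s2 _ hB hBO h2 fun y hy => ?_⟩
    by_cases hyA : y ∈ A
    · rw [if_pos hyA]
      exact (h2' y ⟨⟨hyA, hy.1⟩, hy.2⟩).symm
    · rw [if_neg hyA]

end general

/-- module UNI -/
theorem uni : T_UNI := by
  intro X _ O Y P W s s' h hW hc hWO hs hs'
  exact uni' h hW hc hWO hs hs'

section star

variable {V : Type} [NormedAddCommGroup V] [NormedSpace ℝ V] {O Y : Set V}
  {P : Set V → (V → ℤˣ) → Prop}

/-- there is a section over a tube around the segment from `c` to `x` -/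
def Tub (O : Set V) (P : Set V → (V → ℤˣ) → Prop) (c x : V) : Prop :=
  ∃ δ : ℝ, 0 < δ ∧ ∃ s : V → ℤˣ, thickening δ (segment ℝ c x) ⊆ O ∧
    P (thickening δ (segment ℝ c x)) s

omit [NormedSpace ℝ V] in
lemma ex_ball (h : SignSheaf O Y P) {x : V} (hx : x ∈ O) :
    ∃ r : ℝ, 0 < r ∧ ∃ s : V → ℤˣ, ball x r ⊆ O ∧ P (ball x r) s := by
  obtain ⟨W, s, h1, h2, h3, h4⟩ := h.ex x hx
  obtain ⟨r, hr, hb⟩ := Metric.isOpen_iff.1 h1 x h2
  exact ⟨r, hr, s, hb.trans h3, restr h h1 h3 isOpen_ball hb h4⟩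

lemma convex_tube (c x : V) (δ : ℝ) : Convex ℝ (thickening δ (segment ℝ c x)) :=
  (convex_segment c x).thickening δ

lemma tub_mono (h : SignSheaf O Y P) {c x y : V} (hy : y ∈ segment ℝ c x) (hx : Tub O P c x) :
    Tub O P c y := by
  obtain ⟨δ, hδ, s, h1, h2⟩ := hx
  have hsub : thickening δ (segment ℝ c y) ⊆ thickening δ (segment ℝ c x) :=
    thickening_subset_of_subset δ
      ((convex_segment c x).segment_subset (left_mem_segment ℝ c x) hy)
  exact ⟨δ, hδ, s, hsub.trans h1, restr h isOpen_thickening h1 isOpen_thickening hsub h2⟩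

/-- extension of a tube by a ball -/
lemma tub_ext (h : SignSheaf O Y P) {c x y z : V} {r : ℝ} {s' : V → ℤˣ} (hr : 0 < r)
    (hB : ball z r ⊆ O) (hs' : P (ball z r) s') (hx : x ∈ ball z (r / 2)) (hy : y ∈ ball z (r / 2))
    (hxy : x ∈ segment ℝ c y) (hT : Tub O P c x) : Tub O P c y := by
  obtain ⟨δ, hδ, s, h1, h2⟩ := hT
  have hconv : IsPreconnected (thickening δ (segment ℝ c x) ∩ ball z r) :=
    ((convex_tube c x δ).inter (convex_ball z r)).isPreconnected
  obtain ⟨t, ht, -⟩ := glue2 h isOpen_thickening isOpen_ball h1 hB hconv h2 hs'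
  have hsub : thickening (min δ (r / 2)) (segment ℝ c y)
      ⊆ thickening δ (segment ℝ c x) ∪ ball z r := by
    intro u hu
    rw [mem_thickening_iff] at hu
    obtain ⟨v, hv, huv⟩ := hu
    -- `v` is in `[c,x]` or in `[x,y]`
    have hv2 : v ∈ segment ℝ c x ∨ v ∈ segment ℝ x y := by
      rw [segment_eq_image_lineMap] at hxy hv
      obtain ⟨a, ha, rfl⟩ := hxy
      obtain ⟨b, hb, rfl⟩ := hv
      rcases le_total b a with hba | hab
      · left
        rcases eq_or_lt_of_le ha.1 with h0 | h0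
        · have hb0 : b = 0 := le_antisymm (by rw [← h0] at hba; exact hba) hb.1
          rw [hb0, ← h0]
          simp
        · rw [segment_eq_image_lineMap]
          refine ⟨b / a, ⟨div_nonneg hb.1 ha.1, (div_le_one h0).2 hba⟩, ?_⟩
          simp only [AffineMap.lineMap_apply, vsub_eq_sub, vadd_eq_add]
          rw [add_sub_cancel_right, smul_smul, div_mul_cancel₀ _ h0.ne']
      · right
        rcases eq_or_lt_of_le ha.2 with h0 | h0
        · have hb0 : b = 1 := le_antisymm hb.2 (by rw [h0] at hab; exact hab)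
          rw [hb0, h0]
          simp
        · rw [segment_eq_image_lineMap]
          have h1a : 0 < 1 - a := by linarith
          refine ⟨(b - a) / (1 - a), ⟨div_nonneg (by linarith) h1a.le,
            (div_le_one h1a).2 (by linarith [hb.2])⟩, ?_⟩
          simp only [AffineMap.lineMap_apply, vsub_eq_sub, vadd_eq_add]
          have e : b = (b - a) / (1 - a) * (1 - a) + a := by
            rw [div_mul_cancel₀ _ h1a.ne']
            ring
          have e2 : y - (a • (y - c) + c) = (1 - a) • (y - c) := by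
            module
          rw [e2, smul_smul]
          conv_rhs => rw [e]
          rw [add_smul]
          abel
    rcases hv2 with hv2 | hv2
    · left
      rw [mem_thickening_iff]
      exact ⟨v, hv2, huv.trans_le (min_le_left _ _)⟩
    · right
      have hvb : v ∈ ball z (r / 2) := (convex_ball z (r / 2)).segment_subset hx hy hv2
      rw [mem_ball] at hvb ⊢
      have := dist_triangle u v z
      have h3 := huv.trans_le (min_le_right _ _)
      linarith
  refine ⟨min δ (r / 2), lt_min hδ (half_pos hr), t, hsub.trans (union_subset h1 hB), ?_⟩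
  exact restr h (isOpen_thickening.union isOpen_ball) (union_subset h1 hB) isOpen_thickening hsub ht

/-- tubes exist -/
lemma tub_all (h : SignSheaf O Y P) {c x : V} (hc : c ∈ O) (hseg : segment ℝ c x ⊆ O) :
    Tub O P c x := by
  have key : ∀ t0 ∈ Icc (0 : ℝ) 1, ∀ᶠ t in 𝓝[Icc (0 : ℝ) 1] t0,
      ((Tub O P c (AffineMap.lineMap c x t0) → Tub O P c (AffineMap.lineMap c x t)) ∧
      (Tub O P c (AffineMap.lineMap c x t) → Tub O P c (AffineMap.lineMap c x t0))) := by
    intro t0 ht0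
    have hmem : AffineMap.lineMap c x t0 ∈ O := hseg (by
      rw [segment_eq_image_lineMap]
      exact ⟨t0, ht0, rfl⟩)
    obtain ⟨r, hr, s', hB, hs'⟩ := ex_ball h hmem
    have hcont : ContinuousAt (fun t : ℝ => (AffineMap.lineMap c x t : V)) t0 :=
      (AffineMap.lineMap_continuous (R := ℝ)).continuousAt
    have hev : ∀ᶠ t in 𝓝[Icc (0 : ℝ) 1] t0, (AffineMap.lineMap c x t : V) ∈
        ball (AffineMap.lineMap c x t0 : V) (r / 2) :=
      (hcont.eventually (ball_mem_nhds _ (half_pos hr))).filter_mono nhdsWithin_le_nhds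
    filter_upwards [hev, self_mem_nhdsWithin] with t ht htI
    have hself : (AffineMap.lineMap c x t0 : V) ∈ ball (AffineMap.lineMap c x t0 : V) (r / 2) :=
      mem_ball_self (half_pos hr)
    have hord : ∀ a b : ℝ, 0 ≤ a → a ≤ b → (AffineMap.lineMap c x a : V) ∈
        segment ℝ c (AffineMap.lineMap c x b) := by
      intro a b ha hab
      rcases eq_or_lt_of_le (ha.trans hab) with h0 | h0
      · have ha0 : a = 0 := le_antisymm (by rw [h0]; exact hab) ha
        rw [ha0, ← h0]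
        simp
      · rw [segment_eq_image_lineMap]
        refine ⟨a / b, ⟨div_nonneg ha h0.le, (div_le_one h0).2 hab⟩, ?_⟩
        simp only [AffineMap.lineMap_apply, vsub_eq_sub, vadd_eq_add]
        rw [add_sub_cancel_right, smul_smul, div_mul_cancel₀ _ h0.ne']
    rcases le_total t0 t with hle | hle
    · exact ⟨tub_ext h hr hB hs' hself ht (hord _ _ ht0.1 hle), tub_mono h (hord _ _ ht0.1 hle)⟩
    · exact ⟨tub_mono h (hord _ _ htI.1 hle), tub_ext h hr hB hs' ht hself (hord _ _ htI.1 hle)⟩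
  have h0 : Tub O P c (AffineMap.lineMap c x (0 : ℝ)) := by
    obtain ⟨r, hr, s', hB, hs'⟩ := ex_ball h hc
    refine ⟨r, hr, s', ?_, ?_⟩
    · simpa [segment_same, thickening_singleton] using hB
    · simpa [segment_same, thickening_singleton] using hs'
  have := isPreconnected_Icc.induction₂' (fun t t' : ℝ => Tub O P c (AffineMap.lineMap c x t) →
    Tub O P c (AffineMap.lineMap c x t')) key (fun a b d _ _ _ hab hbd h => hbd (hab h))
    (left_mem_Icc.2 zero_le_one) (right_mem_Icc.2 zero_le_one) h0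
  simpa using this

end star

/-- module GLS -/
theorem gls : T_GLS := by
  classical
  intro V _ _ O Y P c hO hc hstar h
  obtain ⟨r0, hr0, sc, hBc, hsc⟩ := ex_ball h hc
  -- normalised tubes
  have hex : ∀ x : V, ∃ (δ : ℝ) (s : V → ℤˣ), x ∈ O → (0 < δ ∧
      thickening δ (segment ℝ c x) ⊆ O ∧ P (thickening δ (segment ℝ c x)) s ∧
      ∀ y ∈ (thickening δ (segment ℝ c x) ∩ ball c r0) \ Y, s y = sc y) := by
    intro x
    by_cases hx : x ∈ O
    · obtain ⟨δ, hδ, s, h1, h2⟩ := tub_all h hc (starConvex_iff_segment_subset.1 hstar hx)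
      have hconv : IsPreconnected (thickening δ (segment ℝ c x) ∩ ball c r0) :=
        ((convex_tube c x δ).inter (convex_ball c r0)).isPreconnected
      have hr := restr h isOpen_thickening h1 (isOpen_thickening.inter isOpen_ball)
        (inter_subset_left (t := ball c r0)) h2
      have hr' := restr h isOpen_ball hBc (isOpen_thickening.inter isOpen_ball)
        (inter_subset_right (s := thickening δ (segment ℝ c x))) hsc
      rcases uni' h (isOpen_thickening.inter isOpen_ball) hconv (inter_subset_left.trans h1) hr hr'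
        with h3 | h3
      · exact ⟨δ, s, fun _ => ⟨hδ, h1, h2, h3⟩⟩
      · refine ⟨δ, fun y => - s y, fun _ => ⟨hδ, h1, h.neg _ s isOpen_thickening h1 h2, ?_⟩⟩
        intro y hy
        simp only [h3 y hy, neg_neg]
    · exact ⟨0, fun _ => 1, fun hx' => absurd hx' hx⟩
  choose δ s hs using hex
  refine ⟨fun x => s x x, ?_⟩
  refine h.glue O _ hO subset_rfl fun x hx => ?_
  obtain ⟨hδ, h1, h2, h3⟩ := hs x hx
  have hbsub : ball x (δ x) ⊆ thickening (δ x) (segment ℝ c x) := by
    intro y hy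
    rw [mem_thickening_iff]
    exact ⟨x, right_mem_segment ℝ c x, hy⟩
  refine ⟨ball x (δ x), isOpen_ball, mem_ball_self hδ, hbsub.trans h1, ?_⟩
  refine h.congr _ (s x) _ isOpen_ball (hbsub.trans h1)
    (restr h isOpen_thickening h1 isOpen_ball hbsub h2) ?_
  rintro y ⟨hy, hyY⟩
  have hyO : y ∈ O := h1 (hbsub hy)
  obtain ⟨gδ, g1, g2, g3⟩ := hs y hyO
  set A : Set V := thickening (δ x) (segment ℝ c x) with hA
  set B : Set V := thickening (δ y) (segment ℝ c y) with hB
  have hAo : IsOpen A := isOpen_thickening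
  have hBo : IsOpen B := isOpen_thickening
  have hconv : IsPreconnected (A ∩ B) := ((convex_tube c x _).inter (convex_tube c y _)).isPreconnected
  have hcA : c ∈ A := self_subset_thickening hδ _ (left_mem_segment ℝ c x)
  have hcB : c ∈ B := self_subset_thickening gδ _ (left_mem_segment ℝ c y)
  have hyB : y ∈ B := self_subset_thickening gδ _ (right_mem_segment ℝ c y)
  have hr := restr h hAo h1 (hAo.inter hBo) inter_subset_left h2
  have hr' := restr h hBo g1 (hAo.inter hBo) inter_subset_right g2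
  obtain ⟨z, hz1, hz2⟩ := h.dense ((A ∩ B) ∩ ball c r0) ((hAo.inter hBo).inter isOpen_ball)
    ((inter_subset_left.trans inter_subset_left).trans h1) ⟨c, ⟨hcA, hcB⟩, mem_ball_self hr0⟩
  have e1 := h3 z ⟨⟨hz1.1.1, hz1.2⟩, hz2⟩
  have e2 := g3 z ⟨⟨hz1.1.2, hz1.2⟩, hz2⟩
  rcases uni' h (hAo.inter hBo) hconv (inter_subset_left.trans h1) hr hr' with h4 | h4
  · exact h4 y ⟨⟨hbsub hy, hyB⟩, hyY⟩
  · exfalso
    have e3 := h4 z ⟨hz1.1, hz2⟩
    rw [e1, e2] at e3
    exact ne_neg_units _ e3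

end Pool.Agent.H41.IC
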