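import Pool.Agent.H94.IC.Targets1
import Pool.Agent.H41.IC.UNI

/-! module GDC of MP_0ee698_an: global section over the complement of an embedded disc -/

open MeasureTheory Set Filter Topology Metric

namespace Pool.Agent.H41.IC

open Pool.Agent.H94.IC

/-! ### planar coordinates -/

/-- the first two coordinates -/
noncomputable def pr (y : E) : EuclideanSpace ℝ (Fin 2) := !₂[y 0, y 1]

lemma pr_sq (y : E) : ‖pr y‖ ^ 2 = y 0 ^ 2 + y 1 ^ 2 := by
  rw [EuclideanSpace.real_norm_sq_eq]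
  simp [pr, Fin.sum_univ_two]

lemma continuous_coord (k : Fin 3) : Continuous (fun y : E => y k) := by fun_prop

lemma continuous_pr : Continuous pr := by
  unfold pr
  refine (PiLp.continuous_toLp 2 _).comp (continuous_pi fun i => ?_)
  fin_cases i
  · exact continuous_coord 0
  · exact continuous_coord 1

lemma dist_sq3 (y d : E) : dist y d ^ 2 = (y 0 - d 0) ^ 2 + (y 1 - d 1) ^ 2 + (y 2 - d 2) ^ 2 := by
  rw [dist_eq_norm, EuclideanSpace.real_norm_sq_eq, Fin.sum_univ_three]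
  simp

lemma mem_flatDisc {y : E} : y ∈ flatDisc ↔ y 2 = 0 ∧ ‖pr y‖ ≤ 1 := by
  unfold flatDisc
  have h : y 0 ^ 2 + y 1 ^ 2 ≤ 1 ↔ ‖pr y‖ ≤ 1 := by
    rw [← pr_sq]
    constructor
    · intro h
      nlinarith [norm_nonneg (pr y)]
    · intro h
      nlinarith [norm_nonneg (pr y)]
  constructor
  · rintro ⟨h1, h2⟩
    exact ⟨h1, h.1 h2⟩
  · rintro ⟨h1, h2⟩
    exact ⟨h1, h.2 h2⟩

lemma convex_flatDisc : Convex ℝ flatDisc := by
  intro x hx y hy a b ha hb hab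
  obtain ⟨hx2, hx1⟩ := hx
  obtain ⟨hy2, hy1⟩ := hy
  refine ⟨?_, ?_⟩
  · simp [hx2, hy2]
  · simp only [PiLp.add_apply, PiLp.smul_apply, smul_eq_mul]
    nlinarith [sq_nonneg (x 0 - y 0), sq_nonneg (x 1 - y 1), mul_nonneg ha hb,
      mul_nonneg (mul_nonneg ha hb) (sq_nonneg (x 0 - y 0)),
      mul_nonneg (mul_nonneg ha hb) (sq_nonneg (x 1 - y 1)),
      mul_nonneg ha (sub_nonneg.2 hx1), mul_nonneg hb (sub_nonneg.2 hy1), hab]

lemma isClosed_flatDisc : IsClosed flatDisc := by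
  have h : flatDisc = (fun y : E => y 2) ⁻¹' {0} ∩ (fun y : E => y 0 ^ 2 + y 1 ^ 2) ⁻¹' Iic 1 := by
    ext y
    exact Iff.rfl
  rw [h]
  exact (isClosed_singleton.preimage (continuous_coord 2)).inter (isClosed_Iic.preimage
    (((continuous_coord 0).pow 2).add ((continuous_coord 1).pow 2)))

lemma isCompact_flatDisc : IsCompact flatDisc := by
  refine (isCompact_closedBall (0 : E) 1).of_isClosed_subset isClosed_flatDisc ?_
  rintro y ⟨h1, h2⟩
  rw [mem_closedBall]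
  have h3 := dist_sq3 y 0
  simp only [PiLp.zero_apply, sub_zero] at h3
  rw [h1] at h3
  have h4 : dist y 0 ^ 2 ≤ 1 := by
    rw [h3]
    linarith
  nlinarith [dist_nonneg (x := y) (y := 0)]

/-- the point with given planar part and height -/
noncomputable def mk3 (v : EuclideanSpace ℝ (Fin 2)) (z : ℝ) : E := !₂[v 0, v 1, z]

lemma pr_mk3 (v : EuclideanSpace ℝ (Fin 2)) (z : ℝ) : pr (mk3 v z) = v := by
  ext i
  fin_cases i <;> simp [pr, mk3]

lemma mk3_two (v : EuclideanSpace ℝ (Fin 2)) (z : ℝ) : (mk3 v z) 2 = z := by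
  simp [mk3]

lemma mk3_pr (y : E) : mk3 (pr y) (y 2) = y := by
  ext i
  fin_cases i <;> simp [pr, mk3]

lemma dist_sq_pr (y d : E) : dist y d ^ 2 = ‖pr y - pr d‖ ^ 2 + (y 2 - d 2) ^ 2 := by
  rw [dist_sq3, EuclideanSpace.real_norm_sq_eq]
  simp [pr, Fin.sum_univ_two]

lemma continuous_mk3 : Continuous (fun q : EuclideanSpace ℝ (Fin 2) × ℝ => mk3 q.1 q.2) := by
  unfold mk3
  refine (PiLp.continuous_toLp 2 _).comp (continuous_pi fun i => ?_)
  fin_cases i
  · change Continuous (fun q : EuclideanSpace ℝ (Fin 2) × ℝ => q.1 0)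
    fun_prop
  · change Continuous (fun q : EuclideanSpace ℝ (Fin 2) × ℝ => q.1 1)
    fun_prop
  · change Continuous (fun q : EuclideanSpace ℝ (Fin 2) × ℝ => q.2)
    fun_prop

/-- distance to the disc of points outside the cylinder -/
lemma mem_tube {δ : ℝ} (hδ : 0 < δ) {y : E} (hy : 1 ≤ ‖pr y‖) :
    y ∈ thickening δ flatDisc ↔ (‖pr y‖ - 1) ^ 2 + (y 2) ^ 2 < δ ^ 2 := by
  rw [mem_thickening_iff]
  constructor
  · rintro ⟨d, hd, hyd⟩
    rw [mem_flatDisc] at hd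
    have h1 := dist_sq_pr y d
    rw [hd.1, sub_zero] at h1
    have h2 : ‖pr y‖ - 1 ≤ ‖pr y - pr d‖ := by
      have := norm_sub_norm_le (pr y) (pr d)
      linarith [hd.2]
    have h3 : (‖pr y‖ - 1) ^ 2 ≤ ‖pr y - pr d‖ ^ 2 := pow_le_pow_left₀ (by linarith) h2 2
    have h4 : dist y d ^ 2 < δ ^ 2 := pow_lt_pow_left₀ hyd dist_nonneg two_ne_zero
    linarith
  · intro h
    have hpos : 0 < ‖pr y‖ := by linarith
    refine ⟨mk3 (‖pr y‖⁻¹ • pr y) 0, ?_, ?_⟩
    · rw [mem_flatDisc, mk3_two, pr_mk3, norm_smul, norm_inv, norm_norm, inv_mul_cancel₀ hpos.ne']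
      exact ⟨rfl, le_rfl⟩
    · have h1 := dist_sq_pr y (mk3 (‖pr y‖⁻¹ • pr y) 0)
      rw [pr_mk3, mk3_two, sub_zero] at h1
      have h2 : pr y - ‖pr y‖⁻¹ • pr y = (1 - ‖pr y‖⁻¹) • pr y := by
        rw [sub_smul, one_smul]
      have h3 : ‖pr y - ‖pr y‖⁻¹ • pr y‖ ^ 2 = (‖pr y‖ - 1) ^ 2 := by
        rw [h2, norm_smul, mul_pow, Real.norm_eq_abs, sq_abs, ← mul_pow, sub_mul, one_mul,
          inv_mul_cancel₀ hpos.ne']
      rw [h3] at h1
      have h4 : dist y (mk3 (‖pr y‖⁻¹ • pr y) 0) ^ 2 < δ ^ 2 := by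
        rw [h1]
        exact h
      exact lt_of_pow_lt_pow_left₀ 2 hδ.le h4

/-! ### the two star shaped pieces -/

/-- upper (`e = 1`) and lower (`e = -1`) pieces of the tube minus the disc -/
def Pc (δ e : ℝ) : Set E :=
  {y | y ∈ thickening δ flatDisc ∧ (0 < e * y 2 ∨ 1 - 2 * (e * y 2) / δ < ‖pr y‖)}

lemma isOpen_Pc (δ e : ℝ) : IsOpen (Pc δ e) := by
  have h1 : IsOpen {y : E | 0 < e * y 2} := isOpen_lt continuous_const
    (continuous_const.mul (continuous_coord 2))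
  have h2 : IsOpen {y : E | 1 - 2 * (e * y 2) / δ < ‖pr y‖} := by
    refine isOpen_lt ?_ continuous_pr.norm
    exact continuous_const.sub ((continuous_const.mul
      (continuous_const.mul (continuous_coord 2))).div_const _)
  exact isOpen_thickening.inter (h1.union h2)

lemma center_mem {δ e : ℝ} (hδ : 0 < δ) (he : e * e = 1) : mk3 0 (e * (δ / 2)) ∈ Pc δ e := by
  refine ⟨?_, Or.inl ?_⟩
  · rw [mem_thickening_iff]
    refine ⟨mk3 0 0, ?_, ?_⟩
    · rw [mem_flatDisc, mk3_two, pr_mk3, norm_zero]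
      exact ⟨rfl, zero_le_one⟩
    · have h1 := dist_sq_pr (mk3 0 (e * (δ / 2))) (mk3 0 0)
      rw [pr_mk3, pr_mk3, mk3_two, mk3_two, sub_self, norm_zero, sub_zero] at h1
      have h2 : dist (mk3 0 (e * (δ / 2))) (mk3 0 0) ^ 2 < δ ^ 2 := by
        rw [h1]
        have : (e * (δ / 2)) ^ 2 = δ ^ 2 / 4 := by
          calc (e * (δ / 2)) ^ 2 = (e * e) * (δ ^ 2 / 4) := by ring
            _ = δ ^ 2 / 4 := by rw [he, one_mul]
        rw [this]
        nlinarith [sq_pos_of_pos hδ]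
      exact lt_of_pow_lt_pow_left₀ 2 hδ.le h2
  · rw [mk3_two, ← mul_assoc, he, one_mul]
    linarith

lemma star_Pc {δ e : ℝ} (hδ : 0 < δ) (he : e * e = 1) :
    StarConvex ℝ (mk3 0 (e * (δ / 2))) (Pc δ e) := by
  intro y hy a b ha hb hab
  have hconv : Convex ℝ (thickening δ flatDisc) := convex_flatDisc.thickening δ
  refine ⟨hconv (center_mem hδ he).1 hy.1 ha hb hab, ?_⟩
  have h2 : (a • mk3 0 (e * (δ / 2)) + b • y) 2 = a * (e * (δ / 2)) + b * y 2 := by
    simp [mk3_two]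
  have hp : pr (a • mk3 0 (e * (δ / 2)) + b • y) = b • pr y := by
    ext i
    fin_cases i <;> simp [pr, mk3]
  rw [h2, hp, norm_smul, Real.norm_of_nonneg hb]
  have h3 : e * (a * (e * (δ / 2)) + b * y 2) = a * (δ / 2) + b * (e * y 2) := by
    calc e * (a * (e * (δ / 2)) + b * y 2) = (e * e) * (a * (δ / 2)) + b * (e * y 2) := by ring
      _ = _ := by rw [he, one_mul]
  rw [h3]
  rcases eq_or_lt_of_le hb with hb0 | hb0
  · left
    have ha1 : a = 1 := by linarith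
    rw [← hb0, ha1]
    linarith
  · rcases hy.2 with h | h
    · left
      have := mul_pos hb0 h
      have := mul_nonneg ha (half_pos hδ).le
      linarith
    · right
      have e1 : 1 - 2 * (a * (δ / 2) + b * (e * y 2)) / δ = b * (1 - 2 * (e * y 2) / δ) := by
        have ha1 : a = 1 - b := by linarith
        rw [ha1]
        field_simp
        ring
      rw [e1]
      exact mul_lt_mul_of_pos_left h hb0

lemma Pc_union {δ : ℝ} : Pc δ 1 ∪ Pc δ (-1) = thickening δ flatDisc \ flatDisc := by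
  ext y
  constructor
  · intro h
    have h1 : y ∈ thickening δ flatDisc := by
      rcases h with h | h
      · exact h.1
      · exact h.1
    refine ⟨h1, fun hd => ?_⟩
    rw [mem_flatDisc] at hd
    rcases h with h | h
    · rcases h.2 with h2 | h2
      · rw [hd.1] at h2
        simp at h2
      · rw [hd.1] at h2
        simp at h2
        linarith [hd.2]
    · rcases h.2 with h2 | h2
      · rw [hd.1] at h2
        simp at h2
      · rw [hd.1] at h2
        simp at h2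
        linarith [hd.2]
  · rintro ⟨h1, h2⟩
    rcases lt_trichotomy (y 2) 0 with h3 | h3 | h3
    · right
      refine ⟨h1, Or.inl ?_⟩
      linarith
    · left
      refine ⟨h1, Or.inr ?_⟩
      rw [mem_flatDisc, not_and, not_le] at h2
      rw [h3]
      simpa using h2 h3
    · left
      refine ⟨h1, Or.inl ?_⟩
      linarith

lemma Pc_inter {δ : ℝ} (hδ : 0 < δ) {y : E} :
    y ∈ Pc δ 1 ∩ Pc δ (-1) ↔ 1 + 2 * |y 2| / δ < ‖pr y‖ ∧ (‖pr y‖ - 1) ^ 2 + (y 2) ^ 2 < δ ^ 2 := by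
  have key : y ∈ Pc δ 1 ∩ Pc δ (-1) ↔ y ∈ thickening δ flatDisc ∧ 1 + 2 * |y 2| / δ < ‖pr y‖ := by
    constructor
    · rintro ⟨⟨h1, h2⟩, ⟨_, h3⟩⟩
      refine ⟨h1, ?_⟩
      rcases le_total 0 (y 2) with h4 | h4
      · rw [abs_of_nonneg h4]
        rcases h3 with h3 | h3
        · linarith
        · have e1 : 1 - 2 * (-1 * y 2) / δ = 1 + 2 * y 2 / δ := by ring
          rwa [e1] at h3
      · rw [abs_of_nonpos h4]
        rcases h2 with h2 | h2
        · linarith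
        · have e1 : 1 - 2 * (1 * y 2) / δ = 1 + 2 * (-y 2) / δ := by ring
          rwa [e1] at h2
    · rintro ⟨h1, h2⟩
      refine ⟨⟨h1, Or.inr ?_⟩, ⟨h1, Or.inr ?_⟩⟩
      · refine lt_of_le_of_lt ?_ h2
        have : -(2 * (1 * y 2) / δ) ≤ 2 * |y 2| / δ := by
          rw [← neg_div]
          apply div_le_div_of_nonneg_right _ hδ.le
          linarith [neg_abs_le (y 2)]
        linarith
      · refine lt_of_le_of_lt ?_ h2
        have : -(2 * (-1 * y 2) / δ) ≤ 2 * |y 2| / δ := by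
          rw [← neg_div]
          apply div_le_div_of_nonneg_right _ hδ.le
          linarith [le_abs_self (y 2)]
        linarith
  rw [key]
  constructor
  · rintro ⟨h1, h2⟩
    have h3 : 1 ≤ ‖pr y‖ := by
      have : 0 ≤ 2 * |y 2| / δ := by positivity
      linarith
    exact ⟨h2, (mem_tube hδ h3).1 h1⟩
  · rintro ⟨h1, h2⟩
    have h3 : 1 ≤ ‖pr y‖ := by
      have : 0 ≤ 2 * |y 2| / δ := by positivity
      linarith
    exact ⟨(mem_tube hδ h3).2 h2, h1⟩

lemma preconnected_inter {δ : ℝ} (hδ : 0 < δ) : IsPreconnected (Pc δ 1 ∩ Pc δ (-1)) := by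
  set Q : Set (ℝ × ℝ) := {q | 1 + 2 * |q.2| / δ < q.1 ∧ (q.1 - 1) ^ 2 + q.2 ^ 2 < δ ^ 2} with hQ
  have hQc : Convex ℝ Q := by
    rintro ⟨r, z⟩ ⟨h1, h2⟩ ⟨r', z'⟩ ⟨h1', h2'⟩ a b ha hb hab
    simp only at h1 h2 h1' h2'
    refine ⟨?_, ?_⟩
    · simp only [Prod.smul_mk, Prod.mk_add_mk, smul_eq_mul]
      have h3 : |a * z + b * z'| ≤ a * |z| + b * |z'| := by
        refine (abs_add_le _ _).trans ?_
        rw [abs_mul, abs_mul, abs_of_nonneg ha, abs_of_nonneg hb]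
      have h4 : 2 * |a * z + b * z'| / δ ≤ a * (2 * |z| / δ) + b * (2 * |z'| / δ) := by
        have e : a * (2 * |z| / δ) + b * (2 * |z'| / δ) = 2 * (a * |z| + b * |z'|) / δ := by ring
        rw [e]
        exact div_le_div_of_nonneg_right (by linarith) hδ.le
      rcases eq_or_lt_of_le ha with ha0 | ha0
      · have hb1 : b = 1 := by linarith
        rw [← ha0, hb1]
        simpa using h1'
      · have h5 := mul_lt_mul_of_pos_left h1 ha0
        have h6 := mul_le_mul_of_nonneg_left h1'.le hb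
        have h7 : a * (1 + 2 * |z| / δ) + b * (1 + 2 * |z'| / δ)
            = 1 + (a * (2 * |z| / δ) + b * (2 * |z'| / δ)) := by
          linear_combination hab
        linarith
    · simp only [Prod.smul_mk, Prod.mk_add_mk, smul_eq_mul]
      have e : (a * r + b * r' - 1) = a * (r - 1) + b * (r' - 1) := by
        have : (1 : ℝ) = a + b := hab.symm
        linear_combination (-1 : ℝ) * this
      rw [e]
      have h3 : (a * (r - 1) + b * (r' - 1)) ^ 2 + (a * z + b * z') ^ 2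
          ≤ a * ((r - 1) ^ 2 + z ^ 2) + b * ((r' - 1) ^ 2 + z' ^ 2) := by
        have hb1 : b = 1 - a := by linarith
        have ha1 : 0 ≤ 1 - a := by linarith
        subst hb1
        nlinarith [mul_nonneg (mul_nonneg ha ha1) (sq_nonneg ((r - 1) - (r' - 1))),
          mul_nonneg (mul_nonneg ha ha1) (sq_nonneg (z - z'))]
      rcases eq_or_lt_of_le ha with ha0 | ha0
      · have hb1 : b = 1 := by linarith
        rw [← ha0, hb1]
        simpa using h2'
      · have h5 := mul_lt_mul_of_pos_left h2 ha0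
        have h6 := mul_le_mul_of_nonneg_left h2'.le hb
        have h7 : a * δ ^ 2 + b * δ ^ 2 = δ ^ 2 := by rw [← add_mul, hab, one_mul]
        linarith
  have himg : Pc δ 1 ∩ Pc δ (-1)
      = (fun q : EuclideanSpace ℝ (Fin 2) × (ℝ × ℝ) => mk3 (q.2.1 • q.1) q.2.2) ''
        (sphere (0 : EuclideanSpace ℝ (Fin 2)) 1 ×ˢ Q) := by
    ext y
    rw [Pc_inter hδ]
    constructor
    · rintro ⟨h1, h2⟩
      have h3 : 0 < ‖pr y‖ := by
        have : 0 ≤ 2 * |y 2| / δ := by positivity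
        linarith
      refine ⟨(‖pr y‖⁻¹ • pr y, (‖pr y‖, y 2)), ⟨?_, h1, h2⟩, ?_⟩
      · rw [mem_sphere_zero_iff_norm, norm_smul, norm_inv, norm_norm, inv_mul_cancel₀ h3.ne']
      · simp only
        rw [smul_smul, mul_inv_cancel₀ h3.ne', one_smul, mk3_pr]
    · rintro ⟨⟨v, r, z⟩, ⟨h1, h2, h3⟩, rfl⟩
      simp only at h1 h2 h3 ⊢
      have hr : 0 < r := by
        have : 0 ≤ 2 * |z| / δ := by positivity
        linarith
      rw [mem_sphere_zero_iff_norm] at h1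
      rw [pr_mk3, mk3_two, norm_smul, Real.norm_of_nonneg hr.le, h1, mul_one]
      exact ⟨h2, h3⟩
  rw [himg]
  have hsph : IsPreconnected (sphere (0 : EuclideanSpace ℝ (Fin 2)) 1) := by
    apply isPreconnected_sphere
    rw [← Module.finrank_eq_rank, finrank_euclideanSpace_fin]
    norm_num
  refine (hsph.prod hQc.isPreconnected).image _ ?_
  apply Continuous.continuousOn
  exact continuous_mk3.comp ((continuous_snd.fst.smul continuous_fst).prodMk continuous_snd.snd)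

/-! ### pulling back a sheaf by a homeomorphism -/

lemma pull {Φ : OpenPartialHomeomorph E E} {O Y O' : Set E} {P : Set E → (E → ℤˣ) → Prop}
    (h : SignSheaf O Y P) (hO' : IsOpen O') (hs : O' ⊆ Φ.source) (hO'O : Φ '' O' ⊆ O) :
    SignSheaf O' (Φ ⁻¹' Y) (fun W s => P (Φ '' W) (fun z => s (Φ.symm z))) := by
  have hopen : ∀ W : Set E, IsOpen W → W ⊆ O' → IsOpen (Φ '' W) := fun W hW hWO =>
    Φ.isOpen_image_of_subset_source hW (hWO.trans hs)
  have hsub : ∀ W : Set E, W ⊆ O' → Φ '' W ⊆ O := fun W hWO => (image_mono hWO).trans hO'O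
  have hinv : ∀ x ∈ O', Φ.symm (Φ x) = x := fun x hx => Φ.left_inv (hs hx)
  refine ⟨?_, ?_, ?_, ?_, ?_, ?_⟩
  · intro W hW hWO hne
    obtain ⟨z, ⟨x, hx, rfl⟩, hz⟩ := h.dense (Φ '' W) (hopen W hW hWO) (hsub W hWO) (hne.image _)
    exact ⟨x, hx, hz⟩
  · intro W s hW hWO hloc
    refine h.glue _ _ (hopen W hW hWO) (hsub W hWO) ?_
    rintro _ ⟨x, hx, rfl⟩
    obtain ⟨W', h1, h2, h3, h4⟩ := hloc x hx
    exact ⟨Φ '' W', hopen W' h1 h3, ⟨x, h2, rfl⟩, hsub W' h3, h4⟩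
  · intro W s s' hW hWO hP hcong
    refine h.congr _ _ _ (hopen W hW hWO) (hsub W hWO) hP ?_
    rintro _ ⟨⟨x, hx, rfl⟩, hY⟩
    rw [hinv x (hWO hx)]
    exact hcong x ⟨hx, hY⟩
  · intro W s hW hWO hP
    exact h.neg _ _ (hopen W hW hWO) (hsub W hWO) hP
  · intro W s s' hW hWO hP hP' x hx
    obtain ⟨W', h1, h2, h3, h4⟩ := h.uniq _ _ _ (hopen W hW hWO) (hsub W hWO) hP hP' (Φ x)
      ⟨x, hx, rfl⟩
    have hWs : IsOpen (W ∩ Φ ⁻¹' W') :=
      (Φ.continuousOn.mono (hWO.trans hs)).isOpen_inter_preimage hW h1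
    refine ⟨W ∩ Φ ⁻¹' W', hWs, ⟨hx, h2⟩, inter_subset_left, ?_⟩
    rcases h4 with h4 | h4
    · left
      rintro y ⟨⟨hy1, hy2⟩, hy3⟩
      have := h4 (Φ y) ⟨hy2, hy3⟩
      rwa [hinv y (hWO hy1)] at this
    · right
      rintro y ⟨⟨hy1, hy2⟩, hy3⟩
      have := h4 (Φ y) ⟨hy2, hy3⟩
      rwa [hinv y (hWO hy1)] at this
  · intro x hx
    obtain ⟨W, s, h1, h2, h3, h4⟩ := h.ex (Φ x) (hO'O ⟨x, hx, rfl⟩)
    have hWs : IsOpen (O' ∩ Φ ⁻¹' W) := (Φ.continuousOn.mono hs).isOpen_inter_preimage hO' h1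
    refine ⟨O' ∩ Φ ⁻¹' W, fun y => s (Φ y), hWs, ⟨hx, h2⟩, inter_subset_left, ?_⟩
    have himg : Φ '' (O' ∩ Φ ⁻¹' W) ⊆ W := by
      rintro _ ⟨y, ⟨_, hy⟩, rfl⟩
      exact hy
    have hres := restr h h1 h3 (hopen _ hWs inter_subset_left) himg h4
    refine h.congr _ _ _ (hopen _ hWs inter_subset_left) (himg.trans h3) hres ?_
    rintro _ ⟨⟨y, ⟨hy1, _⟩, rfl⟩, _⟩
    rw [hinv y hy1]

/-! ### filling in the disc -/

lemma fill {O Y S V0 : Set E} {P : Set E → (E → ℤˣ) → Prop} (hOS : O = Sᶜ) (h : SignSheaf O Y P)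
    (hS : IsClosed S) (hSi : ∀ W : Set E, IsOpen W → W.Nonempty → (W \ S).Nonempty)
    (hV0 : IsOpen V0) (hSV : S ⊆ V0) {t : E → ℤˣ} (ht : P (V0 \ S) t) :
    SignSheaf univ (Y ∪ S) (fun W s => P (W \ S) s ∧ ∀ x ∈ W ∩ S, ∃ W' : Set E, IsOpen W' ∧ x ∈ W' ∧
      ∃ c : ℤˣ, ∀ y ∈ W' \ (Y ∪ S), s y = c * t y) := by
  have hop : ∀ W : Set E, IsOpen W → IsOpen (W \ S) := fun W hW => hW.sdiff hS
  have hsub : ∀ W : Set E, W \ S ⊆ O := by
    intro W x hx
    rw [hOS]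
    exact hx.2
  have hdiff : ∀ W : Set E, W \ (Y ∪ S) = (W \ S) \ Y := by
    intro W
    ext x
    simp only [Set.mem_sdiff, mem_union, not_or]
    tauto
  refine ⟨?_, ?_, ?_, ?_, ?_, ?_⟩
  · intro W hW _ hne
    rw [hdiff]
    exact h.dense _ (hop W hW) (hsub W) (hSi W hW hne)
  · intro W s hW _ hloc
    refine ⟨h.glue _ _ (hop W hW) (hsub W) fun x hx => ?_, fun x hx => ?_⟩
    · obtain ⟨W', h1, h2, _, h4, _⟩ := hloc x hx.1
      exact ⟨W' \ S, hop W' h1, ⟨h2, hx.2⟩, hsub W', h4⟩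
    · obtain ⟨W', h1, h2, _, _, h5⟩ := hloc x hx.1
      exact h5 x ⟨h2, hx.2⟩
  · rintro W s s' hW _ ⟨hP, hP2⟩ hcong
    refine ⟨h.congr _ _ _ (hop W hW) (hsub W) hP ?_, fun x hx => ?_⟩
    · rw [← hdiff]
      exact hcong
    · obtain ⟨W', h1, h2, c, h3⟩ := hP2 x hx
      refine ⟨W' ∩ W, h1.inter hW, ⟨h2, hx.1⟩, c, ?_⟩
      rintro y ⟨⟨hy1, hy2⟩, hy3⟩
      rw [← hcong y ⟨hy2, hy3⟩]
      exact h3 y ⟨hy1, hy3⟩
  · rintro W s hW _ ⟨hP, hP2⟩
    refine ⟨h.neg _ _ (hop W hW) (hsub W) hP, fun x hx => ?_⟩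
    obtain ⟨W', h1, h2, c, h3⟩ := hP2 x hx
    refine ⟨W', h1, h2, -c, fun y hy => ?_⟩
    simp only [h3 y hy, neg_mul]
  · rintro W s s' hW _ ⟨hP, hP2⟩ ⟨hP', hP2'⟩ x hx
    by_cases hxS : x ∈ S
    · obtain ⟨W1, h1, h2, c, h3⟩ := hP2 x ⟨hx, hxS⟩
      obtain ⟨W2, g1, g2, c', g3⟩ := hP2' x ⟨hx, hxS⟩
      refine ⟨W1 ∩ W2 ∩ W, (h1.inter g1).inter hW, ⟨⟨h2, g2⟩, hx⟩, inter_subset_right, ?_⟩
      rcases Int.units_eq_one_or c with hc | hc <;> rcases Int.units_eq_one_or c' with hc' | hc'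
      · left
        intro y hy
        rw [h3 y ⟨hy.1.1.1, hy.2⟩, g3 y ⟨hy.1.1.2, hy.2⟩, hc, hc']
      · right
        intro y hy
        rw [h3 y ⟨hy.1.1.1, hy.2⟩, g3 y ⟨hy.1.1.2, hy.2⟩, hc, hc']
        simp
      · right
        intro y hy
        rw [h3 y ⟨hy.1.1.1, hy.2⟩, g3 y ⟨hy.1.1.2, hy.2⟩, hc, hc']
        simp
      · left
        intro y hy
        rw [h3 y ⟨hy.1.1.1, hy.2⟩, g3 y ⟨hy.1.1.2, hy.2⟩, hc, hc']
    · obtain ⟨W', h1, h2, h3, h4⟩ := h.uniq _ _ _ (hop W hW) (hsub W) hP hP' x ⟨hx, hxS⟩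
      refine ⟨W', h1, h2, fun y hy => (h3 hy).1, ?_⟩
      rcases h4 with h4 | h4
      · exact Or.inl fun y hy => h4 y ⟨hy.1, fun hY => hy.2 (Or.inl hY)⟩
      · exact Or.inr fun y hy => h4 y ⟨hy.1, fun hY => hy.2 (Or.inl hY)⟩
  · intro x _
    by_cases hxS : x ∈ S
    · refine ⟨V0, t, hV0, hSV hxS, subset_univ _, ht, fun y hy => ⟨V0, hV0, hy.1, 1, ?_⟩⟩
      intro z _
      rw [one_mul]
    · obtain ⟨W, s, h1, h2, h3, h4⟩ := h.ex x (by
        rw [hOS]
        exact hxS)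
      have hWS : W \ S = W := by
        ext y
        refine ⟨fun hy => hy.1, fun hy => ⟨hy, ?_⟩⟩
        have := h3 hy
        rw [hOS] at this
        exact this
      refine ⟨W, s, h1, h2, subset_univ _, ?_, fun y hy => ?_⟩
      · rw [hWS]
        exact h4
      · exfalso
        have := h3 hy.1
        rw [hOS] at this
        exact this hy.2

/-- module GDC -/
theorem gdc : T_GDC := by
  intro Φ δ Y P hδ hsrc h
  set S : Set E := Φ '' flatDisc with hS
  have hthick : thickening δ flatDisc ⊆ Φ.source := (thickening_subset_cthickening δ _).trans hsrc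
  have hdisc : flatDisc ⊆ thickening δ flatDisc := self_subset_thickening hδ _
  have hdsrc : flatDisc ⊆ Φ.source := hdisc.trans hthick
  have hScomp : IsCompact S := isCompact_flatDisc.image_of_continuousOn (Φ.continuousOn.mono hdsrc)
  have hSclosed : IsClosed S := hScomp.isClosed
  have hinjsrc : InjOn Φ Φ.source := Φ.injOn
  -- the disc has no interior
  have hflat : ∀ W : Set E, IsOpen W → W.Nonempty → (W \ flatDisc).Nonempty := by
    rintro W hW ⟨y, hy⟩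
    obtain ⟨ε, hε, hb⟩ := Metric.isOpen_iff.1 hW y hy
    by_cases h2 : y 2 = 0
    · refine ⟨mk3 (pr y) (ε / 2), hb ?_, ?_⟩
      · rw [mem_ball]
        have h1 := dist_sq_pr (mk3 (pr y) (ε / 2)) y
        rw [pr_mk3, mk3_two, sub_self, norm_zero, h2, sub_zero] at h1
        have h3 : dist (mk3 (pr y) (ε / 2)) y ^ 2 < ε ^ 2 := by
          rw [h1]
          nlinarith
        exact lt_of_pow_lt_pow_left₀ 2 hε.le h3
      · rw [mem_flatDisc, mk3_two]
        rintro ⟨h3, _⟩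
        linarith
    · exact ⟨y, hy, fun hd => h2 (mem_flatDisc.1 hd).1⟩
  have hSi : ∀ W : Set E, IsOpen W → W.Nonempty → (W \ S).Nonempty := by
    intro W hW hne
    by_contra hcon
    rw [not_nonempty_iff_eq_empty, sdiff_eq_empty] at hcon
    have hWt : W ⊆ Φ.target := fun y hy => by
      obtain ⟨x, hx, rfl⟩ := hcon hy
      exact Φ.map_source (hdsrc hx)
    have hW2 : IsOpen (Φ.symm '' W) := Φ.symm.isOpen_image_of_subset_source hW hWt
    obtain ⟨z, ⟨y, hy, rfl⟩, hz⟩ := hflat _ hW2 (hne.image _)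
    obtain ⟨x, hx, rfl⟩ := hcon hy
    rw [Φ.left_inv (hdsrc hx)] at hz
    exact hz hx
  -- the two pieces
  have hPsub : ∀ e, Pc δ e ⊆ Φ.source := fun e y hy => hthick hy.1
  have hPO : ∀ e, e = 1 ∨ e = -1 → Φ '' Pc δ e ⊆ Sᶜ := by
    rintro e he _ ⟨y, hy, rfl⟩ ⟨x, hx, hxy⟩
    have hyd : y ∈ thickening δ flatDisc \ flatDisc := by
      rw [← Pc_union]
      rcases he with he | he
      · left
        rw [← he]
        exact hy
      · right
        rw [← he]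
        exact hy
    have := hinjsrc (hdsrc hx) (hPsub e hy) hxy
    exact hyd.2 (this ▸ hx)
  have hsec : ∀ e, e = 1 ∨ e = -1 → ∃ s : E → ℤˣ, P (Φ '' Pc δ e) s := by
    intro e he
    have hee : e * e = 1 := by
      rcases he with he | he <;> rw [he] <;> norm_num
    obtain ⟨s, hs⟩ := gls E (Pc δ e) _ _ (mk3 0 (e * (δ / 2))) (isOpen_Pc δ e)
      (center_mem hδ hee) (star_Pc hδ hee) (pull h (isOpen_Pc δ e) (hPsub e) (hPO e he))
    exact ⟨_, hs⟩
  obtain ⟨s1, hs1⟩ := hsec 1 (Or.inl rfl)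
  obtain ⟨s2, hs2⟩ := hsec (-1) (Or.inr rfl)
  have ho1 : IsOpen (Φ '' Pc δ 1) := Φ.isOpen_image_of_subset_source (isOpen_Pc δ 1) (hPsub 1)
  have ho2 : IsOpen (Φ '' Pc δ (-1)) :=
    Φ.isOpen_image_of_subset_source (isOpen_Pc δ (-1)) (hPsub (-1))
  have hinter : Φ '' Pc δ 1 ∩ Φ '' Pc δ (-1) = Φ '' (Pc δ 1 ∩ Pc δ (-1)) :=
    (hinjsrc.image_inter (hPsub 1) (hPsub (-1))).symm
  have hpre : IsPreconnected (Φ '' Pc δ 1 ∩ Φ '' Pc δ (-1)) := by
    rw [hinter]
    exact (preconnected_inter hδ).image _ (Φ.continuousOn.mono (inter_subset_left.trans (hPsub 1)))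
  obtain ⟨t, ht, -⟩ := glue2 h ho1 ho2 (hPO 1 (Or.inl rfl)) (hPO (-1) (Or.inr rfl)) hpre hs1 hs2
  have hunion : Φ '' Pc δ 1 ∪ Φ '' Pc δ (-1) = Φ '' thickening δ flatDisc \ S := by
    rw [← image_union, Pc_union, hS, (hinjsrc.mono hthick).image_sdiff_subset hdisc]
  rw [hunion] at ht
  have hV0 : IsOpen (Φ '' thickening δ flatDisc) :=
    Φ.isOpen_image_of_subset_source isOpen_thickening hthick
  have hfill := fill rfl h hSclosed hSi hV0 (image_mono hdisc) ht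
  obtain ⟨s, hs⟩ := gls E univ _ _ 0 isOpen_univ (mem_univ 0) (starConvex_univ 0) hfill
  refine ⟨s, ?_⟩
  have := hs.1
  rwa [← compl_eq_univ_sdiff] at this

end Pool.Agent.H41.IC
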