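import Pool.Agent.H94.IC.Targets1

/-! module POL of MP_0ee698_an -/

open MeasureTheory Set Filter Topology Metric

namespace Pool.Agent.H41.IC

open Pool.Agent.H94.IC

/-- module POL -/
theorem pol : T_POL := by
  intro N c hN h
  set S : Set E := (fun y => c + y) ⁻¹' N with hS
  have hSm : MeasurableSet S := (measurable_const_add c) hN
  have hvol : volume S = volume N := measure_preimage_add volume c N
  rw [← hvol]
  -- almost every line through the origin meets `S` in a null set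
  have hT : MeasurableSet {q : E × ℝ | q.2 ∈ Ioo (1 : ℝ) 2 ∧ q.2 • q.1 ∈ S} :=
    (measurable_snd measurableSet_Ioo).inter ((measurable_snd.smul measurable_fst) hSm)
  have h1 : ((volume : Measure E).prod (volume : Measure ℝ))
      {q : E × ℝ | q.2 ∈ Ioo (1 : ℝ) 2 ∧ q.2 • q.1 ∈ S} = 0 := by
    rw [Measure.measure_prod_null hT]
    have h0 : ∀ᵐ x : E, x ≠ 0 := by
      rw [ae_iff]
      simp
    filter_upwards [h0] with x hx
    have hx' : 0 < ‖x‖ := norm_pos_iff.2 hx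
    have hc := h (‖x‖⁻¹ • x) (by rw [norm_smul, norm_inv, norm_norm, inv_mul_cancel₀ hx'.ne'])
    have hsub : (Prod.mk x ⁻¹' {q : E × ℝ | q.2 ∈ Ioo (1 : ℝ) 2 ∧ q.2 • q.1 ∈ S})
        ⊆ (fun t => ‖x‖⁻¹ * t) '' {t : ℝ | 0 < t ∧ c + t • (‖x‖⁻¹ • x) ∈ N} := by
      rintro t ⟨ht1, ht2⟩
      refine ⟨‖x‖ * t, ⟨mul_pos hx' (by linarith [ht1.1]), ?_⟩, ?_⟩
      · have e : (‖x‖ * t) • (‖x‖⁻¹ • x) = t • x := by
          rw [smul_smul]
          congr 1
          field_simp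
        rw [e]
        exact ht2
      · change ‖x‖⁻¹ * (‖x‖ * t) = t
        field_simp
    exact ((hc.image _).mono hsub).measure_zero _
  have h2 : ∀ᵐ t : ℝ, volume ((fun x : E => (x, t)) ⁻¹'
      {q : E × ℝ | q.2 ∈ Ioo (1 : ℝ) 2 ∧ q.2 • q.1 ∈ S}) = 0 := by
    rw [Measure.prod_apply_symm hT] at h1
    have := (lintegral_eq_zero_iff (measurable_measure_prodMk_right hT)).1 h1
    exact this
  have h3 : ∃ t ∈ Ioo (1 : ℝ) 2, volume ((fun x : E => (x, t)) ⁻¹'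
      {q : E × ℝ | q.2 ∈ Ioo (1 : ℝ) 2 ∧ q.2 • q.1 ∈ S}) = 0 := by
    by_contra hcon
    push Not at hcon
    have h4 : volume (Ioo (1 : ℝ) 2) = 0 := by
      refine measure_mono_null (t := {t : ℝ | ¬ volume ((fun x : E => (x, t)) ⁻¹'
        {q : E × ℝ | q.2 ∈ Ioo (1 : ℝ) 2 ∧ q.2 • q.1 ∈ S}) = 0}) (fun t ht => hcon t ht) ?_
      exact ae_iff.1 h2
    rw [Real.volume_Ioo] at h4
    norm_num at h4
  obtain ⟨t, ht, h5⟩ := h3
  have h6 : ((fun x : E => (x, t)) ⁻¹' {q : E × ℝ | q.2 ∈ Ioo (1 : ℝ) 2 ∧ q.2 • q.1 ∈ S})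
      = (fun x : E => t • x) ⁻¹' S := by
    ext x
    exact ⟨fun h => h.2, fun h => ⟨ht, h⟩⟩
  have ht0 : t ≠ 0 := by
    have := ht.1
    positivity
  rw [h6, Measure.addHaar_preimage_smul _ ht0] at h5
  rcases mul_eq_zero.1 h5 with h7 | h7
  · exfalso
    rw [ENNReal.ofReal_eq_zero] at h7
    exact absurd h7 (not_le.2 (by positivity))
  · exact h7

end Pool.Agent.H41.IC
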