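import Pool.Agent.H94.IC.Targets1
import Pool.Agent.H41.IC.POL

/-! module NUL of MP_0ee698_an: zero sets are null -/

open MeasureTheory Set Filter Topology Metric

namespace Pool.Agent.H41.IC

open Pool.Agent.H94.IC

lemma countable_zeros {g : ℂ → ℂ} {Ω : Set ℂ} (hΩ : IsOpen Ω) (hc : IsPreconnected Ω)
    (hg : ∀ t ∈ Ω, DifferentiableAt ℂ g t) {t0 : ℂ} (ht0 : t0 ∈ Ω) (hne : g t0 ≠ 0) :
    {t | t ∈ Ω ∧ g t = 0}.Countable := by
  have ha : AnalyticOnNhd ℂ g Ω := by
    have : DifferentiableOn ℂ g Ω := fun t ht => (hg t ht).differentiableWithinAt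
    exact this.analyticOnNhd hΩ
  rcases ha.eqOn_zero_or_eventually_ne_zero_of_preconnected hc with h | h
  · exact absurd (h ht0) hne
  · have h2 : IsDiscrete ({t | g t = 0} ∩ Ω) := by
      apply isDiscrete_of_codiscreteWithin
      exact h
    have h3 : ({t | g t = 0} ∩ Ω).Countable :=
      (HereditarilyLindelofSpace.isLindelof _).countable_of_isDiscrete h2
    refine h3.mono ?_
    rintro t ⟨h4, h5⟩
    exact ⟨h5, h4⟩

lemma dist_cx_le (x p : E) : dist (cx x) (cx p) ≤ dist x p := by
  rw [dist_pi_le_iff dist_nonneg]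
  intro k
  unfold cx
  rw [Complex.dist_eq, ← Complex.ofReal_sub, Complex.norm_real, Real.norm_eq_abs]
  rw [EuclideanSpace.dist_eq]
  have h1 : |x k - p k| = Real.sqrt ((dist (x k) (p k)) ^ 2) := by
    rw [Real.sqrt_sq dist_nonneg, Real.dist_eq]
  rw [h1]
  apply Real.sqrt_le_sqrt
  exact Finset.single_le_sum (f := fun i => dist (x i) (p i) ^ 2) (fun i _ => sq_nonneg _)
    (Finset.mem_univ k)

/-- module NUL -/
theorem nul (hIDT : T_IDT) : T_NUL := by
  intro O f hO hOc hf hHX hne
  refine measure_null_of_locally_null _ fun p hp => ?_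
  obtain ⟨ρ, hρ, F, hF, hFf⟩ := hHX p hp.1
  obtain ⟨r1, hr1, hb1⟩ := Metric.isOpen_iff.1 hO p hp.1
  set r := min ρ r1 with hr
  have hr0 : 0 < r := lt_min hρ hr1
  have hBO : ball p r ⊆ O := (ball_subset_ball (min_le_right _ _)).trans hb1
  have hBc : ∀ x ∈ ball p r, cx x ∈ ball (cx p) ρ := by
    intro x hx
    exact (dist_cx_le x p).trans_lt ((mem_ball.1 hx).trans_le (min_le_left _ _))
  -- a point where `f` does not vanish
  obtain ⟨c, hcB, hc⟩ : ∃ c ∈ ball p r, f c ≠ 0 := by
    by_contra hcon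
    push Not at hcon
    obtain ⟨x, hx, hx2⟩ := hne
    exact hx2 (hIDT O (ball p r) f hO hOc hf hHX isOpen_ball ⟨p, mem_ball_self hr0⟩ hBO hcon x hx)
  refine ⟨{x | x ∈ O ∧ f x = 0} ∩ ball p r, inter_mem_nhdsWithin _ (ball_mem_nhds p hr0), ?_⟩
  have hm : MeasurableSet ({x | x ∈ O ∧ f x = 0} ∩ ball p r) := by
    refine MeasurableSet.inter ?_ isOpen_ball.measurableSet
    have h1 : Measurable (fun x : O => f x) :=
      (continuousOn_iff_continuous_domRestrict.1 hf).measurable
    have h2 : {x | x ∈ O ∧ f x = 0} = Subtype.val '' ((fun x : O => f x) ⁻¹' {0}) := by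
      ext x
      constructor
      · rintro ⟨hx, hx2⟩
        exact ⟨⟨x, hx⟩, hx2, rfl⟩
      · rintro ⟨⟨x, hx⟩, hx2, rfl⟩
        exact ⟨hx, hx2⟩
    rw [h2]
    exact hO.measurableSet.subtype_image (h1 (measurableSet_singleton 0))
  refine pol _ c hm fun v _ => ?_
  set g : ℂ → ℂ := fun t => F (cx c + t • cx v) with hg
  set Ω : Set ℂ := (fun t : ℂ => cx c + t • cx v) ⁻¹' ball (cx p) ρ with hΩ
  have hcont : Continuous (fun t : ℂ => cx c + t • cx v) := by fun_prop
  have hΩo : IsOpen Ω := isOpen_ball.preimage hcont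
  have hΩc : IsPreconnected Ω := by
    have hconv : Convex ℝ Ω := by
      intro s hs t ht a b ha hb hab
      have h3 : cx c + (a • s + b • t) • cx v
          = a • (cx c + s • cx v) + b • (cx c + t • cx v) := by
        have h4 : cx c = a • cx c + b • cx c := by rw [← add_smul, hab, one_smul]
        funext k
        have h5 := congrFun h4 k
        simp only [Pi.add_apply, Pi.smul_apply, smul_eq_mul, Complex.real_smul] at h5 ⊢
        linear_combination h5
      change cx c + (a • s + b • t) • cx v ∈ ball (cx p) ρ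
      rw [h3]
      exact convex_ball (cx p) ρ hs ht ha hb hab
    exact hconv.isPreconnected
  have hgd : ∀ t ∈ Ω, DifferentiableAt ℂ g t := by
    intro t ht
    have h3 := hF.2 (cx c + t • cx v) ht (cx v)
    have h4 : g = (fun s : ℂ => F (cx c + t • cx v + s • cx v)) ∘ (fun s => s - t) := by
      funext s
      simp only [hg, Function.comp]
      congr 1
      rw [add_assoc, ← add_smul]
      congr 2
      ring
    rw [h4]
    have h5 : DifferentiableAt ℂ (fun s : ℂ => F (cx c + t • cx v + s • cx v)) ((fun s => s - t) t) := by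
      simpa using h3
    have h6 : DifferentiableAt ℂ (fun s : ℂ => s - t) t := by fun_prop
    exact DifferentiableAt.comp t h5 h6
  have h0 : (0 : ℂ) ∈ Ω := by
    change cx c + (0 : ℂ) • cx v ∈ ball (cx p) ρ
    rw [zero_smul, add_zero]
    exact hBc c hcB
  have hg0 : g 0 ≠ 0 := by
    change F (cx c + (0 : ℂ) • cx v) ≠ 0
    rw [zero_smul, add_zero, hFf c (hBc c hcB)]
    exact_mod_cast hc
  have hcnt := countable_zeros hΩo hΩc hgd h0 hg0
  refine (hcnt.preimage Complex.ofReal_injective).mono ?_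
  rintro t ⟨ht0, ⟨htO, htf⟩, htB⟩
  have hcxt : cx (c + t • v) = cx c + (t : ℂ) • cx v := by
    funext k
    simp [cx]
  have h6 : cx (c + t • v) ∈ ball (cx p) ρ := hBc _ htB
  refine ⟨?_, ?_⟩
  · change cx c + (t : ℂ) • cx v ∈ ball (cx p) ρ
    rw [← hcxt]
    exact h6
  · change F (cx c + (t : ℂ) • cx v) = 0
    rw [← hcxt, hFf _ h6, htf]
    simp

end Pool.Agent.H41.IC
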